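import Pool.Agent.W295.PR.Stm

/-!
# Project PR (helper295): LT1
-/

set_option autoImplicit false

namespace Pool.Agent.W303.PR.LT1

open Pool.Agent.W295.PR

section
variable {G : Type} [Group G] [TopologicalSpace G] [IsTopologicalGroup G]

theorem gpp_mem (N : Nil G) (D : ℕ) (e : ℤ) {u x v : G} (hu : u ∈ N.G0) (hx : x ∈ N.G0)
    (hv : v ∈ N.G0) : gpp N D e u x v ∈ PP N D :=
  Subgroup.subset_closure ⟨e, u, x, v, hu, hx, hv, rfl⟩

theorem lam_one (N : Nil G) (D : ℕ) {lam : (RR D → G) → Circle} (hl : Lam N D lam) :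
    lam 1 = 1 := by
  have h := hl.mul 1 (PP N D).one_mem 1 (PP N D).one_mem
  rw [mul_one] at h
  exact (mul_eq_left.mp h.symm)

theorem lam_conj (N : Nil G) (D : ℕ) {lam : (RR D → G) → Circle} (hl : Lam N D lam)
    {d f : RR D → G} (hd : d ∈ PP N D) (hf : f ∈ PP N D) : lam (d * f * d⁻¹) = lam f := by
  have hd' := (PP N D).inv_mem hd
  rw [hl.mul _ ((PP N D).mul_mem hd hf) _ hd', hl.mul _ hd _ hf]
  have h1 : lam d * lam d⁻¹ = 1 := by
    rw [← hl.mul _ hd _ hd', mul_inv_cancel, lam_one N D hl]
  calc lam d * lam f * lam d⁻¹ = lam d * lam d⁻¹ * lam f := by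
        rw [mul_assoc, mul_comm (lam f), ← mul_assoc]
    _ = lam f := by rw [h1, one_mul]

end

theorem main (h1 : S_EL) : S_LT1 := by
  intro G _ _ _ N D lam hl e u hu x hx
  have hone := N.G0.one_mem
  have hchi : ∀ x ∈ N.G0, lam (gpp N D e 1 x 1) = 1 := by
    apply h1 G N (fun x => lam (gpp N D e 1 x 1))
    · intro x hx y hy
      show lam _ = lam _ * lam _
      rw [← hl.mul _ (gpp_mem N D e hone hx hone) _ (gpp_mem N D e hone hy hone)]
      congr 1
      funext q
      simp only [gpp, Pi.mul_apply, one_mul]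
      group
    · rw [continuousOn_iff_continuous_restrict]
      apply hl.cont N.G0 (fun z => gpp N D e 1 z 1)
      · intro z
        exact gpp_mem N D e hone z.2 hone
      · intro q
        simp only [gpp]
        exact (continuous_const.mul continuous_subtype_val).mul continuous_const
    · intro x hx
      show lam _ = lam _
      rw [← hl.conjT _ (gpp_mem N D e hone hx hone)]
      congr 1
      funext q
      simp only [gpp, one_mul]
      generalize ev D e q = k
      have hc : N.a ^ k * N.a = N.a * N.a ^ k := by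
        rw [← zpow_add_one, ← zpow_one_add, add_comm]
      calc N.a ^ k * (N.a * x * N.a⁻¹) * (N.a ^ k)⁻¹
          = (N.a ^ k * N.a) * x * (N.a ^ k * N.a)⁻¹ := by group
        _ = (N.a * N.a ^ k) * x * (N.a * N.a ^ k)⁻¹ := by rw [hc]
        _ = N.a * (N.a ^ k * x * (N.a ^ k)⁻¹) * N.a⁻¹ := by group
    · intro γ hγ hγ0
      have := hl.fixe e γ hγ hγ0
      show lam _ = 1
      rw [← this]
      congr 1
      funext q
      simp only [gpp, one_mul]
    · have := hl.g0e e
      show lam _ = 1
      rw [← this]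
      congr 1
      funext q
      simp only [gpp, one_mul]
  have hd := gpp_mem N D e hu hone hone
  have hc := gpp_mem N D e hone hx hone
  have he : gpp N D e u x u = gpp N D e u 1 1 * gpp N D e 1 x 1 * (gpp N D e u 1 1)⁻¹ := by
    funext q
    simp only [gpp, Pi.mul_apply, Pi.inv_apply, one_mul, mul_one]
    group
  rw [he, lam_conj N D hl hd hc]
  exact hchi x hx

end Pool.Agent.W303.PR.LT1
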